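import Mathlib
import Pool.Agent.H.MP_cf6e1a_co.C
set_option autoImplicit false

namespace Pool.Agent.Results.MP_cf6e1a_co.No
open Finset Pool.Agent.H.MP_16c276_co Pool.Agent.H.MP_a8759f_co Pool.Agent.H.MP_cf6e1a_co

/-- a finite abstract simplicial complex on the vertex set `Fin n` (not all vertices need be used) -/
def IsComplex {n : ℕ} (K : Finset (Finset (Fin n))) : Prop := ∀ σ ∈ K, ∀ τ, τ ⊆ σ → τ ∈ K

def IsFacet {n : ℕ} (K : Finset (Finset (Fin n))) (F : Finset (Fin n)) : Prop :=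
  F ∈ K ∧ ∀ G ∈ K, F ⊆ G → G = F

/-- a complex all of whose facets have `d` vertices -/
def PureCx (d : ℕ) {n : ℕ} (K : Finset (Finset (Fin n))) : Prop :=
  IsComplex K ∧ ∀ F, IsFacet K F → F.card = d

/-- geometric realization, in barycentric coordinates -/
def real {n : ℕ} (K : Finset (Finset (Fin n))) : Set (Fin n → ℝ) :=
  {x | (∀ i, 0 ≤ x i) ∧ ∑ i, x i = 1 ∧ ∃ σ ∈ K, ∀ i, i ∉ σ → x i = 0}

/-- `K` is the boundary complex of the simplicial `d`-polytope `conv {p i | i ∈ W}`: the points span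
`ℝ^d` affinely, the faces of `K` are `∅` and the point sets cut out by supporting hyperplanes, and
each of them is affinely independent. -/
def PolytopeBoundary (d : ℕ) {n : ℕ} (K : Finset (Finset (Fin n))) : Prop :=
  ∃ (W : Finset (Fin n)) (p : Fin n → Fin d → ℝ),
    (∀ (a : (Fin d → ℝ) →ₗ[ℝ] ℝ) (c : ℝ), (∀ i ∈ W, a (p i) = c) → a = 0) ∧
    (∀ σ ∈ K, AffineIndependent ℝ fun i : σ => p i) ∧
    ∀ σ, σ ∈ K ↔ σ = ∅ ∨ ∃ (a : (Fin d → ℝ) →ₗ[ℝ] ℝ) (c : ℝ), a ≠ 0 ∧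
      (∀ i ∈ W, a (p i) ≤ c) ∧ ∀ i, i ∈ σ ↔ i ∈ W ∧ a (p i) = c

/-- `σ` is a face of the boundary complex of `K`: it lies in a ridge contained in exactly one facet -/
def InBoundary (d : ℕ) {n : ℕ} (K : Finset (Finset (Fin n))) (σ : Finset (Fin n)) : Prop :=
  ∃ ρ, σ ⊆ ρ ∧ ρ.card + 1 = d ∧ ∃! F, IsFacet K F ∧ ρ ⊆ F

/-- a convex ear decomposition `S 0, …, S m` of `Δ` -/
def CED (d : ℕ) {n : ℕ} (Δ : Finset (Finset (Fin n))) : Prop :=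
  ∃ (m : ℕ) (S : Fin (m + 1) → Finset (Finset (Fin n))),
    (∀ j, PureCx d (S j)) ∧ PolytopeBoundary d (S 0) ∧
    (∀ j, j ≠ 0 →
      Nonempty (real (S j) ≃ₜ Metric.closedBall (0 : EuclideanSpace ℝ (Fin (d - 1))) 1) ∧
      (∃ (n' : ℕ) (L : Finset (Finset (Fin n'))) (f : Fin n → Fin n'), PolytopeBoundary d L ∧
        Set.InjOn f {v | {v} ∈ S j} ∧ (S j).image (Finset.image f) ⊂ L) ∧
      ∀ σ, (σ ∈ S j ∧ ∃ i < j, σ ∈ S i) ↔ InBoundary d (S j) σ) ∧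
    ∀ σ, σ ∈ Δ ↔ ∃ j, σ ∈ S j

/-- the facets can be listed so that every face of the intersection of `F j` with the earlier facets
lies in a face of that intersection with one vertex fewer than `F j` -/
def Shellable {n : ℕ} (K : Finset (Finset (Fin n))) : Prop :=
  ∃ (s : ℕ) (F : Fin s → Finset (Fin n)), Function.Injective F ∧ (∀ G, IsFacet K G ↔ ∃ j, F j = G) ∧
    ∀ j σ, σ ⊆ F j → (∃ i < j, σ ⊆ F i) →
      ∃ ρ, σ ⊆ ρ ∧ ρ ⊆ F j ∧ (∃ k < j, ρ ⊆ F k) ∧ ρ.card + 1 = (F j).card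

theorem fac {n : ℕ} {l : List ℕ} (h : ∀ m ∈ l, (dec n m).card = 4) (G : Finset (Fin n)) :
    IsFacet (K n l) G ↔ ∃ m ∈ l, dec n m = G := ⟨fun a => by
  obtain ⟨m, b, c⟩ := mem_K.1 a.1
  exact ⟨m, b, a.2 _ (mem_K.2 ⟨m, b, Subset.rfl⟩) c⟩, by
  rintro ⟨m, a, rfl⟩
  refine ⟨mem_K.2 ⟨m, a, Subset.rfl⟩, fun G b c => ?_⟩
  obtain ⟨m', d, e⟩ := mem_K.1 b
  exact (eq_of_subset_of_card_le c ((card_le_card e).trans (by rw [h m a, h m' d]))).symm⟩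

theorem pure {n : ℕ} {l : List ℕ} (h : ∀ m ∈ l, (dec n m).card = 4) : PureCx 4 (K n l) :=
  ⟨fun σ a τ b => mem_K.2 ((mem_K.1 a).imp fun _ c => ⟨c.1, b.trans c.2⟩), fun F a => by
    obtain ⟨m, b, rfl⟩ := (fac h F).1 a
    exact h m b⟩

theorem oks (m : ℕ) (hm : m ∈ L1 ++ L2) : ((dec 40 m).card = 4 ∧ (dec 40 m ∩ dec 40 N0).card ≤ 2) ∧
    (∀ x ∈ dec 40 m \ dec 40 N0, ∀ y ∈ dec 40 m \ dec 40 N0, ∀ z ∈ dec 40 m \ dec 40 N0,
      e0 y z * e0 x y = e0 x z ∧ e0 y z • b0 G x y + b0 G y z = b0 G x z) ∧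
    ∀ u ∈ dec 40 m ∩ dec 40 N0, ∀ x ∈ dec 40 m \ dec 40 N0,
      (∀ y ∈ dec 40 m \ dec 40 N0, e0 x y • b0 CU u x + b0 G x y = b0 CU u y) ∧
      ∀ v ∈ dec 40 m ∩ dec 40 N0, b0 CU u x = b0 CU v x := by
  have h := List.all_eq_true.1 c7 m hm
  simp only [ok, fL_eq, Bool.and_eq_true, List.all_eq_true, beq_iff_eq, decide_eq_true_eq] at h
  rw [dec_and, dec_sd, card_dec, card_dec]
  exact ⟨h.1.1, fun x a y b z c => h.1.2 _ (mem_bt a) _ (mem_bt b) _ (mem_bt c), fun u a x b =>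
    (h.2 _ (mem_bt a) _ (mem_bt b)).imp (fun c y d => c _ (mem_bt d)) fun c y d => c _ (mem_bt d)⟩

theorem nonsh : ¬ Shellable (K 40 (L1 ++ L2)) := by
  rintro ⟨s, F, -, f1, f2⟩
  simp only [fac fun m hm => (oks m hm).1.1] at f1
  let F' : ℕ → Finset (Fin 40) := fun i => if h : i < s then F ⟨i, h⟩ else ∅
  have e' : ∀ i : Fin s, F' i = F i := fun i => dif_pos i.2
  have sh : Sh (· < s) F' := fun j hj i l hi => by
    obtain ⟨ρ, a, b, ⟨k, c, e⟩, f⟩ := f2 ⟨j, hj⟩ (F ⟨i, hi⟩ ∩ F ⟨j, hj⟩) inter_subset_right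
      ⟨⟨i, hi⟩, l, inter_subset_left⟩
    obtain ⟨v, v1, v2⟩ := exists_eq_insert_iff.2 ⟨b, f⟩
    refine ⟨k, c, k.2, v, ?_⟩
    rw [e' ⟨j, hj⟩, e' ⟨i, hi⟩, e' k]
    rw [← v2] at a ⊢
    rw [erase_insert v1]
    exact ⟨mem_insert_self _ _, a, e⟩
  have md : ∀ i < s, ∃ m ∈ L1 ++ L2, dec 40 m = F' i := fun i hi => (f1 _).2 ⟨⟨i, hi⟩, (e' _).symm⟩
  obtain ⟨α, β, n0, t, ht⟩ := flat sh (dec 40 N0) (fun x y => e0 x y) (fun x y => b0 G x y)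
    (fun x y => b0 CU x y) (card_dec.trans (by decide +kernel)) (fun x y => by
      unfold e0
      split_ifs <;> decide)
    (fun i hi => by obtain ⟨m, a, b⟩ := md i hi; exact b ▸ (oks m a).1)
    (fun i hi => by obtain ⟨m, a, b⟩ := md i hi; exact b ▸ (oks m a).2.1)
    (fun i hi => by obtain ⟨m, a, b⟩ := md i hi; exact b ▸ (oks m a).2.2) s
  have := c8 α β t fun m hm => by
    obtain ⟨j, hj⟩ := (f1 _).1 ⟨m, List.mem_append_right _ hm, rfl⟩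
    rw [← hj, ← e']
    exact ht j j.2 j.2
  tauto

theorem bdy (σ : Finset (Fin 40)) : (σ ∈ K 40 L2 ∧ σ ∈ K 40 L1) ↔ InBoundary 4 (K 40 L2) σ := by
  have h4 : ∀ m ∈ L2, (dec 40 m).card = 4 := fun m hm => (oks m (List.mem_append_right _ hm)).1.1
  have l1 : ∀ m, m ∈ L1 ↔ ∃ z ∈ LZ, m = z ||| 2 ^ (38 : Fin 40).1 ∨ m = z ||| 2 ^ (39 : Fin 40).1 :=
    fun m => by simp only [L1, List.mem_flatMap, List.mem_cons, List.not_mem_nil, or_false]; rfl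
  simp only [InBoundary, fac h4, mem_K]
  constructor
  · rintro ⟨⟨m, a, b⟩, m', c, d⟩
    obtain ⟨z, z1, z2⟩ := (l1 m').1 c
    obtain ⟨z3, z4, z5⟩ := c6.1 z z1
    obtain ⟨f, hf⟩ := List.length_eq_one_iff.1 z3
    have k : ∀ g, g ∈ L2 ∧ dec 40 z ⊆ dec 40 g ↔ g = f := fun g => by
      rw [← List.mem_singleton, ← hf, mem_flt, decide_eq_true_eq]
      exact and_congr_right fun _ => ⟨sub2 z5, sub1⟩
    refine ⟨dec 40 z, fun i hi => ?_, by rw [card_dec, z4], dec 40 f,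
      ⟨⟨f, ((k f).2 rfl).1, rfl⟩, ((k f).2 rfl).2⟩, ?_⟩
    · have e := mem_dec.1 (b hi)
      have := c6.2 m a
      rcases z2 with rfl | rfl <;> rw [dec_or] at d <;>
        refine (mem_insert.1 (d hi)).resolve_left fun l => ?_ <;> subst l <;> simp_all
    · rintro _ ⟨⟨g, g1, rfl⟩, g2⟩
      rw [(k g).1 ⟨g1, g2⟩]
  · rintro ⟨ρ, a, b, _, ⟨⟨f, f1, rfl⟩, f2⟩, u⟩
    obtain ⟨i, i1, i2⟩ := exists_eq_insert_iff.2 ⟨f2, b.trans (h4 f f1).symm⟩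
    have i3 : i ∈ dec 40 f := i2 ▸ mem_insert_self _ _
    obtain ⟨g, g1, g2, g3⟩ := rid_ok c5 f f1 i i3
    rw [← i2, erase_insert i1] at g2
    refine ⟨⟨f, f1, a.trans f2⟩, g ||| 2 ^ (38 : Fin 40).1, (l1 _).2 ⟨g, (List.mem_append.1 g1).resolve_left
      fun h => g3 (u _ ⟨⟨g, h, rfl⟩, g2⟩ ▸ i3), Or.inl rfl⟩, ?_⟩
    rw [dec_or]
    exact (a.trans g2).trans (subset_insert _ _)

theorem result : ∃ (n d : ℕ) (Δ : Finset (Finset (Fin n))), PureCx d Δ ∧ CED d Δ ∧ ¬ Shellable Δ := by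
  have p1 := pc_ok c1
  have p2 := pc_ok c2
  rw [List.map_append, c3.1] at p1
  rw [c3.2] at p2
  refine ⟨40, 4, K 40 (L1 ++ L2), pure fun m hm => (oks m hm).1.1, ⟨1, ![K 40 L1, K 40 L2],
    Fin.forall_fin_two.2 ⟨pure fun m hm => (oks m (List.mem_append_left _ hm)).1.1,
      pure fun m hm => (oks m (List.mem_append_right _ hm)).1.1⟩, p2, Fin.forall_fin_two.2
    ⟨fun h => (h rfl).elim, fun _ => ⟨?_, ⟨40, _, id, p1, Set.injOn_id _, ?_⟩, fun σ => ?_⟩⟩,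
    fun σ => ?_⟩, nonsh⟩
  · obtain ⟨e1⟩ := ch_ok (39 : Fin 40) _ _ _ (fun f hf => (c6.2 f hf).2) c4
    obtain ⟨e2⟩ := ball3 (dec 40 137440268288) (card_dec.trans (by decide +kernel))
    refine ⟨(Homeomorph.setCongr ?_).trans (e1.trans ((Homeomorph.setCongr
      (by simp [RL, eq_comm])).trans e2))⟩
    exact Set.ext fun x => and_congr_right fun _ => and_congr_right fun _ =>
      ⟨fun ⟨σ, a, b⟩ => (mem_K.1 a).elim fun m c => ⟨_, ⟨m, c.1, rfl⟩, fun i hi => b i fun h => hi (c.2 h)⟩,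
        fun ⟨_, ⟨m, a, e⟩, b⟩ => ⟨_, mem_K.2 ⟨m, a, e.ge⟩, b⟩⟩
  · rw [show Finset.image (id : Fin 40 → Fin 40) = id from funext fun _ => image_id, image_id]
    refine ssubset_iff_of_subset (fun σ h => mem_K.2 ((mem_K.1 h).imp fun m a =>
      ⟨List.mem_append_left _ a.1, a.2⟩)) |>.2 ⟨dec 40 29, mem_K.2 ⟨29, by decide +kernel, Subset.rfl⟩,
      fun h => ?_⟩
    obtain ⟨m, a, b⟩ := mem_K.1 h
    exact (by decide +kernel : ∀ m ∈ L2, m &&& 29 ≠ 29) m a (sub2 (by norm_num) b)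
  · exact (and_congr_right fun _ => by simp).trans (bdy σ)
  · refine Iff.trans ?_ Fin.exists_fin_two.symm
    simp only [Matrix.cons_val_one, Matrix.cons_val_zero, mem_K, List.mem_append, or_and_right,
      exists_or]

end Pool.Agent.Results.MP_cf6e1a_co.No
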